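import Pool.Agent.H.MP_e277cf_an.E

namespace Pool.Agent.Results.MP_e277cf_an.No
open Pool.Agent.H.MP_e277cf_an Pool.Agent.H.MP_e277cf_an.Defs

theorem result : ∃ Ω Ω' : Set ℂ, KConn 3 Ω ∧ KConn 3 Ω' ∧ Bornology.IsBounded Ω ∧
    Bornology.IsBounded Ω' ∧ Ω ⊆ Ω' ∧
    (∃ e : ContinuousMap.HomotopyEquiv Ω Ω', ∀ z, (e.toFun z : ℂ) = z) ∧
    EH Ω Ω' < ⊤ ∧ ∀ h, Diffeo Ω Ω' h → En Ω (fderiv ℝ h) ≠ EH Ω Ω' :=
  ⟨W 1, W (5 / 4), kconn le_rfl, kconn (by norm_num),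
    Metric.isBounded_ball.subset Set.sdiff_subset, Metric.isBounded_ball.subset Set.sdiff_subset,
    W_sub, heq, EH_fin, main⟩

end Pool.Agent.Results.MP_e277cf_an.No
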